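import Pool.Agent.Lib.MP_b5021c_nt.UF.H74.Cyc

/-!
# MP_b5021c_nt, chapter UF, row UF_C2 (helper74): the content is `1 - ep z^d`, one variable
-/

namespace Pool.Agent.B5.UF.H74

open Polynomial
open scoped ComplexConjugate Topology

/-- The identity behind `Re (2 x / y - 1) ≥ 0`. -/
theorem re_id {x y : ℂ} (hy : y ≠ 0) :
    ‖x‖ ^ 2 - ‖x - y‖ ^ 2 = ‖y‖ ^ 2 * (2 * (x / y).re - 1) := by
  have h1 : (x / y).re * Complex.normSq y = x.re * y.re + x.im * y.im := by
    have h2 : Complex.normSq y ≠ 0 := by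
      rw [ne_eq, Complex.normSq_eq_zero]
      exact hy
    rw [Complex.div_re]
    field_simp
  rw [← Complex.normSq_eq_norm_sq, ← Complex.normSq_eq_norm_sq, ← Complex.normSq_eq_norm_sq]
  have h3 : Complex.normSq (x - y) =
      Complex.normSq x - 2 * (x.re * y.re + x.im * y.im) + Complex.normSq y := by
    simp only [Complex.normSq_apply, Complex.sub_re, Complex.sub_im]
    ring
  rw [h3, ← h1]
  ring

/-- A real negative multiple. -/
theorem real_of {t G : ℂ} {a s : ℝ} (ha : 0 < a) (hs : 0 < s) (hG : G.im = 0) (hG' : G.re < 0)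
    (h : (a : ℂ) * t * G = -(s : ℂ)) : t.im = 0 ∧ 0 < t.re := by
  have hGe : G = (G.re : ℂ) := Complex.ext (by simp) (by simp [hG])
  have hne : (a : ℂ) * (G.re : ℂ) ≠ 0 := by
    rw [← Complex.ofReal_mul]
    exact_mod_cast (mul_neg_of_pos_of_neg ha hG').ne
  have h1 : t = ((-s / (a * G.re) : ℝ) : ℂ) := by
    rw [hGe] at h
    push_cast
    rw [eq_div_iff hne]
    linear_combination h
  rw [h1]
  refine ⟨Complex.ofReal_im _, ?_⟩
  rw [Complex.ofReal_re]
  exact div_pos_of_neg_of_neg (by linarith) (mul_neg_of_pos_of_neg ha hG')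

/-- The mean of a polynomial over `z₀ η`. -/
theorem mean_z0 (r : ℤ[X]) (z0 : ℂ) {K : ℕ} (hK : r.natDegree < K) {w : ℂ}
    (hw : IsPrimitiveRoot w K) :
    ∑ j ∈ Finset.range K, aeval (z0 * w ^ j) r = K * r.coeff 0 := by
  obtain ⟨P, hP⟩ : ∃ P : ℂ[X], P = (r.map (algebraMap ℤ ℂ)).comp (C z0 * X) := ⟨_, rfl⟩
  have hdeg : P.natDegree < K := by
    rw [hP]
    refine natDegree_comp_le.trans_lt ?_
    have h1 : (C z0 * X : ℂ[X]).natDegree ≤ 1 := (natDegree_C_mul_le z0 X).trans natDegree_X_le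
    have h2 : (r.map (algebraMap ℤ ℂ)).natDegree ≤ r.natDegree := natDegree_map_le
    nlinarith
  have h1 := dft hw P hdeg (k := 0) (by lia)
  simp only [pow_zero, mul_one] at h1
  have h2 : ∀ j ∈ Finset.range K, P.eval (w ^ j) = aeval (z0 * w ^ j) r := by
    intro j _
    rw [hP, eval_comp, eval_mul, eval_C, eval_X, av_map]
  rw [Finset.sum_congr rfl h2] at h1
  rw [h1]
  congr 1
  rw [hP, coeff_zero_eq_eval_zero, eval_comp, eval_mul, eval_X, mul_zero,
    ← coeff_zero_eq_eval_zero, coeff_map]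
  rfl

/-- Points of the circle near `z` which are not roots of unity of a given order. -/
theorem near {M : ℕ} (hM : 0 < M) {z : ℂ} (hz : z ^ M = 1) {x : ℝ} (hx : 0 < x)
    (hx1 : x < 1 / M) : (z * Complex.exp (x * Complex.I)) ^ M ≠ 1 := by
  intro h
  rw [mul_pow, hz, one_mul, ← Complex.exp_nat_mul, Complex.exp_eq_one_iff] at h
  obtain ⟨l, hl⟩ := h
  have hM0 : (0 : ℝ) < M := by exact_mod_cast hM
  have h1 : (M : ℝ) * x = l * (2 * Real.pi) := by
    have h2 := congrArg Complex.im hl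
    simp at h2
    linarith
  have h3 : (M : ℝ) * x < 1 := by
    rw [lt_div_iff₀ hM0] at hx1
    linarith
  have h4 : 0 < (M : ℝ) * x := by positivity
  have hpi := Real.pi_gt_three
  rw [h1] at h3 h4
  have h5 : (0 : ℝ) < l := by
    by_contra hcon
    push Not at hcon
    nlinarith
  have h6 : (1 : ℝ) ≤ l := by
    have h7 : (0 : ℤ) < l := by exact_mod_cast h5
    exact_mod_cast h7
  nlinarith

/-- The closed forms at the roots of unity. -/
structure Dat (N n : ℕ) (p0 p1 c1 W T : ℤ[X]) : Prop where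
  N3 : 3 ≤ N
  n0 : 0 < n
  hp : p0 - p1 = C ((N : ℤ) - 1) * c1
  c0 : c1.coeff 0 = 1
  p00 : p0.coeff 0 = N
  hle : ∀ z : ℂ, ‖z‖ = 1 → ‖aeval z p1‖ ≤ ‖aeval z p0‖
  hne : ∃ z : ℂ, ‖z‖ = 1 ∧ ‖aeval z p1‖ ≠ ‖aeval z p0‖
  hW : (X ^ n - 1 : ℤ[X]) = c1 * W
  deg : T.natDegree < n
  im : ∀ z : ℂ, z ^ n = 1 → (aeval z T).im = 0
  re : ∀ z : ℂ, z ^ n = 1 → 0 ≤ (aeval z T).re
  ne : ∀ z : ℂ, z ^ n = 1 → (aeval z T ≠ 0 ↔ aeval z c1 = 0)
  val : ∀ z : ℂ, z ^ n = 1 → ((N : ℂ) - 1) * aeval z T = -(aeval z p0 * aeval z W)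

variable {N n : ℕ} {p0 p1 c1 W T : ℤ[X]}

/-- The total mass is one. -/
theorem mass (D : Dat N n p0 p1 c1 W T) (hex : ∃ z : ℂ, aeval z c1 = 0) : T.coeff 0 = 1 := by
  have hN := D.N3
  have hn := D.n0
  have hNr : (3 : ℝ) ≤ N := by exact_mod_cast hN
  have hN1 : ((N : ℂ) - 1) ≠ 0 := by
    intro h
    have h1 := congrArg Complex.re h
    simp at h1
    linarith
  have hWz : ∀ z : ℂ, z ^ n - 1 = aeval z c1 * aeval z W := by
    intro z
    have h1 := congrArg (aeval z) D.hW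
    rw [map_sub, map_pow, aeval_X, map_one, map_mul] at h1
    exact h1
  -- positivity
  have hpos : 0 < T.coeff 0 := by
    obtain ⟨z, hz⟩ := hex
    have hzn : z ^ n = 1 := by
      have := hWz z
      rw [hz, zero_mul] at this
      exact sub_eq_zero.mp this
    refine coeff0_pos hn D.deg D.re hzn ?_
    have h1 := (D.ne z hzn).mpr hz
    refine lt_of_le_of_ne (D.re z hzn) fun h2 => h1 ?_
    exact Complex.ext (by rw [← h2]; simp) (by rw [D.im z hzn]; simp)
  -- the polynomial part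
  obtain ⟨r', hr'⟩ : (X ^ n - 1 : ℤ[X]) ∣ -(p0 * W) - C ((N : ℤ) - 1) * T := by
    refine xn_dvd hn fun z hz => ?_
    simp only [map_sub, map_neg, map_mul, aeval_C]
    have h1 := D.val z hz
    have h2 : (algebraMap ℤ ℂ) ((N : ℤ) - 1) = (N : ℂ) - 1 := by simp
    have h3 : (algebraMap ℤ ℂ) (N : ℤ) - (algebraMap ℤ ℂ) 1 = (N : ℂ) - 1 := by
      rw [← map_sub, h2]
    rw [h3, h1]
    ring
  obtain ⟨r, hr⟩ : ∃ r : ℤ[X], r = -r' := ⟨_, rfl⟩
  have hrW : -(p0 * W) = C ((N : ℤ) - 1) * T + (1 - X ^ n) * r := by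
    rw [hr]
    linear_combination hr'
  have hr0 : (N : ℤ) = (N - 1) * T.coeff 0 + r.coeff 0 := by
    have h1 : W.coeff 0 = -1 := by
      have h2 := congrArg (fun p : ℤ[X] => p.coeff 0) D.hW
      simp only [mul_coeff_zero, D.c0, one_mul, coeff_sub, coeff_X_pow, coeff_one_zero] at h2
      rw [if_neg (by lia)] at h2
      lia
    have h2 := congrArg (fun p : ℤ[X] => p.coeff 0) hrW
    simp only [coeff_neg, mul_coeff_zero, coeff_add, D.p00, h1, coeff_C_zero, coeff_sub,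
      coeff_X_pow, coeff_one_zero] at h2
    rw [if_neg (by lia)] at h2
    lia
  -- the identity on the circle
  have key : ∀ z : ℂ, ‖z‖ = 1 → z ^ n ≠ 1 → ∃ Y : ℝ, 0 < Y ∧
      ‖aeval z p0‖ ^ 2 - ‖aeval z p1‖ ^ 2 =
        Y * (((N : ℝ) - 1) * (T.coeff 0 - 1) + 2 * (aeval z r).re) := by
    intro z hz hzn
    have h1 := re_half hn D.deg D.im hz hzn
    have hsub : (1 : ℂ) - z ^ n ≠ 0 := sub_ne_zero.mpr (Ne.symm hzn)
    have hcW : aeval z c1 * aeval z W ≠ 0 := by
      rw [← hWz]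
      exact sub_ne_zero.mpr hzn
    have hc : aeval z c1 ≠ 0 := left_ne_zero_of_mul hcW
    have hy : ((N : ℂ) - 1) * aeval z c1 ≠ 0 := mul_ne_zero hN1 hc
    have h2 := re_id (x := aeval z p0) hy
    have h3 : aeval z p0 - ((N : ℂ) - 1) * aeval z c1 = aeval z p1 := by
      have h4 := congrArg (aeval z) D.hp
      rw [map_sub, map_mul, aeval_C] at h4
      have h5 : (algebraMap ℤ ℂ) ((N : ℤ) - 1) = (N : ℂ) - 1 := by simp
      rw [h5] at h4
      linear_combination h4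
    rw [h3] at h2
    have h6 : (2 : ℝ) * (aeval z p0 / (((N : ℂ) - 1) * aeval z c1)).re - 1 =
        (((N : ℝ) - 1) * (T.coeff 0 - 1) + 2 * (aeval z r).re) / ((N : ℝ) - 1) := by
      have h7 : aeval z p0 / (((N : ℂ) - 1) * aeval z c1) =
          aeval z T / (1 - z ^ n) + aeval z r / ((((N : ℝ) - 1 : ℝ)) : ℂ) := by
        have h8 := congrArg (aeval z) hrW
        simp only [map_neg, map_mul, map_add, aeval_C, map_sub, map_one, map_pow,
          aeval_X] at h8
        have h5 : (algebraMap ℤ ℂ) (N : ℤ) = (N : ℂ) := by simp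
        rw [h5] at h8
        have h9 : ((((N : ℝ) - 1 : ℝ)) : ℂ) = (N : ℂ) - 1 := by push_cast; ring
        rw [h9, div_add_div _ _ hsub hN1, div_eq_div_iff hy (mul_ne_zero hsub hN1)]
        have h10 := hWz z
        have hWne : aeval z W ≠ 0 := right_ne_zero_of_mul hcW
        apply mul_right_cancel₀ hWne
        linear_combination (-(1 - z ^ n) * ((N : ℂ) - 1)) * h8 +
          (((N : ℂ) - 1) * (aeval z T * ((N : ℂ) - 1) + (1 - z ^ n) * aeval z r)) * h10
      rw [h7, Complex.add_re, Complex.div_ofReal_re, mul_add, h1]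
      have h11 : (N : ℝ) - 1 ≠ 0 := by linarith
      field_simp
      ring
    refine ⟨‖((N : ℂ) - 1) * aeval z c1‖ ^ 2 / ((N : ℝ) - 1), ?_, ?_⟩
    · have h12 : 0 < ‖((N : ℂ) - 1) * aeval z c1‖ := norm_pos_iff.mpr hy
      have h13 : 0 < (N : ℝ) - 1 := by linarith
      positivity
    · rw [h2, h6]
      ring
  have key2 : ∀ z : ℂ, ‖z‖ = 1 → z ^ n ≠ 1 →
      0 ≤ ((N : ℝ) - 1) * (T.coeff 0 - 1) + 2 * (aeval z r).re := by
    intro z hz hzn
    obtain ⟨Y, hY, h1⟩ := key z hz hzn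
    have h2 := D.hle z hz
    have h3 : 0 ≤ ‖aeval z p0‖ ^ 2 - ‖aeval z p1‖ ^ 2 := by
      nlinarith [norm_nonneg (aeval z p1)]
    rw [h1] at h3
    exact nonneg_of_mul_nonneg_right h3 hY
  -- averaging
  obtain ⟨K, hK⟩ : ∃ K, K = r.natDegree + 1 := ⟨_, rfl⟩
  have hK0 : 0 < K := by lia
  have hw := Complex.isPrimitiveRoot_exp K hK0.ne'
  obtain ⟨w, hwdef⟩ : ∃ w, w = Complex.exp (2 * Real.pi * Complex.I / K) := ⟨_, rfl⟩
  rw [← hwdef] at hw
  have hwn : ∀ j, (w ^ j) ^ K = 1 := by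
    intro j
    rw [← pow_mul, mul_comm, pow_mul, hw.pow_eq_one, one_pow]
  have avg : ∀ z : ℂ, ‖z‖ = 1 → z ^ (n * K) ≠ 1 →
      (0 : ℝ) ≤ (N + 1) - (N - 1) * T.coeff 0 ∧
        ((N : ℝ) + 1 = (N - 1) * T.coeff 0 → ‖aeval z p1‖ = ‖aeval z p0‖) := by
    intro z hz hzK
    have hj1 : ∀ j, ‖z * w ^ j‖ = 1 := by
      intro j
      rw [norm_mul, hz, one_mul]
      exact Complex.norm_eq_one_of_pow_eq_one (hwn j) hK0.ne'
    have hj2 : ∀ j, (z * w ^ j) ^ n ≠ 1 := by
      intro j h1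
      apply hzK
      have h2 : (z * w ^ j) ^ (n * K) = 1 := by
        rw [pow_mul, h1, one_pow]
      have h3 : (z * w ^ j) ^ (n * K) = z ^ (n * K) := by
        rw [mul_pow, mul_comm n K, pow_mul (w ^ j), hwn, one_pow, mul_one]
      rw [← h3, h2]
    have h1 := mean_z0 r z (K := K) (by lia) hw
    have h2 := congrArg Complex.re h1
    rw [Complex.re_sum] at h2
    have h3 : ((K : ℂ) * (r.coeff 0 : ℂ)).re = K * r.coeff 0 := by simp
    rw [h3] at h2
    have h4 : ∑ j ∈ Finset.range K, (((N : ℝ) - 1) * (T.coeff 0 - 1) +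
        2 * (aeval (z * w ^ j) r).re) = K * ((N + 1) - (N - 1) * T.coeff 0) := by
      rw [Finset.sum_add_distrib, Finset.sum_const, Finset.card_range, nsmul_eq_mul,
        ← Finset.mul_sum, h2]
      have h5 : (r.coeff 0 : ℝ) = N - (N - 1) * T.coeff 0 := by
        have h6 : ((N : ℤ) : ℝ) = (((N - 1) * T.coeff 0 + r.coeff 0 : ℤ) : ℝ) := by rw [← hr0]
        push_cast at h6
        linarith
      rw [h5]
      ring
    have hK1 : (0 : ℝ) < K := by exact_mod_cast hK0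
    constructor
    · have h5 : 0 ≤ ∑ j ∈ Finset.range K, (((N : ℝ) - 1) * (T.coeff 0 - 1) +
          2 * (aeval (z * w ^ j) r).re) :=
        Finset.sum_nonneg fun j _ => key2 _ (hj1 j) (hj2 j)
      rw [h4] at h5
      exact nonneg_of_mul_nonneg_right h5 hK1
    · intro heq
      rw [heq, sub_self, mul_zero] at h4
      have h5 := (Finset.sum_eq_zero_iff_of_nonneg fun j _ => key2 _ (hj1 j) (hj2 j)).mp h4 0
        (Finset.mem_range.mpr hK0)
      rw [pow_zero, mul_one] at h5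
      have hzn : z ^ n ≠ 1 := by
        have := hj2 0
        rwa [pow_zero, mul_one] at this
      obtain ⟨Y, hY, h6⟩ := key z hz hzn
      rw [h5, mul_zero] at h6
      have h7 : ‖aeval z p1‖ ^ 2 = ‖aeval z p0‖ ^ 2 := by linarith
      exact (sq_eq_sq₀ (norm_nonneg _) (norm_nonneg _)).mp h7
  have hnK : 0 < n * K := Nat.mul_pos hn hK0
  have hnK' : (0 : ℝ) < (n * K : ℕ) := by exact_mod_cast hnK
  have hle : (0 : ℝ) ≤ (N + 1) - (N - 1) * T.coeff 0 := by
    have h1 := near hnK (z := 1) (one_pow _) (x := 1 / (2 * (n * K : ℕ))) (by positivity) (by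
      rw [div_lt_div_iff_of_pos_left one_pos (by positivity) hnK']
      linarith)
    rw [one_mul] at h1
    exact (avg _ (Complex.norm_exp_ofReal_mul_I _) h1).1
  have hlt : (N : ℝ) + 1 ≠ (N - 1) * T.coeff 0 := by
    intro heq
    obtain ⟨z, hz, hzne⟩ := D.hne
    by_cases h1 : z ^ (n * K) = 1
    · apply hzne
      have h2 : 0 ≤ -(‖aeval (z * Complex.exp ((0 : ℝ) * Complex.I)) p1‖ -
          ‖aeval (z * Complex.exp ((0 : ℝ) * Complex.I)) p0‖) ^ 2 := by
        refine lim_ge (F := fun x : ℝ => -(‖aeval (z * Complex.exp (x * Complex.I)) p1‖ -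
          ‖aeval (z * Complex.exp (x * Complex.I)) p0‖) ^ 2) ?_
          (δ := 1 / (n * K : ℕ)) (by positivity) ?_
        · simp_rw [← av_map]
          fun_prop
        · intro x hx0 hx1
          have h3 := near hnK h1 hx0 hx1
          have h4 := (avg (z * Complex.exp (x * Complex.I)) (by
            rw [norm_mul, hz, Complex.norm_exp_ofReal_mul_I, one_mul]) h3).2 heq
          rw [h4, sub_self]
          norm_num
      rw [Complex.ofReal_zero, zero_mul, Complex.exp_zero, mul_one] at h2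
      have h5 : (‖aeval z p1‖ - ‖aeval z p0‖) ^ 2 = 0 :=
        le_antisymm (by linarith) (sq_nonneg _)
      exact sub_eq_zero.mp (pow_eq_zero_iff two_ne_zero |>.mp h5)
    · exact hzne ((avg z hz h1).2 heq)
  have hfin : (N - 1 : ℝ) * T.coeff 0 < N + 1 := by
    rcases lt_or_eq_of_le (sub_nonneg.mp hle) with h | h
    · exact h
    · exact absurd h.symm hlt
  have hfin2 : ((N : ℤ) - 1) * T.coeff 0 < N + 1 := by exact_mod_cast hfin
  by_contra hcon
  have h2 : 2 ≤ T.coeff 0 := by lia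
  have h3 : (3 : ℤ) ≤ N := by exact_mod_cast hN
  nlinarith

/-- The content is `1 - ep X^d`. -/
theorem fin (D : Dat N n p0 p1 c1 W T) (h1 : T.coeff 0 = 1) :
    ∃ (d : ℕ) (ep : ℤ), 1 ≤ d ∧ (ep = 1 ∨ ep = -1) ∧ c1 = 1 - C ep * X ^ d ∧
      ∀ z : ℂ, aeval z c1 = 0 → aeval z p0 = N - 1 := by
  classical
  have hn := D.n0
  have hn0 : (n : ℂ) ≠ 0 := by exact_mod_cast hn.ne'
  have hWz : ∀ z : ℂ, z ^ n - 1 = aeval z c1 * aeval z W := by
    intro z
    have h1 := congrArg (aeval z) D.hW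
    rw [map_sub, map_pow, aeval_X, map_one, map_mul] at h1
    exact h1
  obtain ⟨d, ep, hd, hep, hT⟩ := cyc_pos hn D.deg (fun z hz => ⟨D.im z hz, D.re z hz⟩) h1
  obtain ⟨E, hE⟩ : ∃ E : ℤ[X], E = 1 - C ep * X ^ d := ⟨_, rfl⟩
  rw [← hE] at hT
  have hTz : ∀ z : ℂ, aeval z E * aeval z T = 1 - z ^ n := by
    intro z
    have h2 := congrArg (aeval z) hT
    rw [map_mul, map_sub, map_one, map_pow, aeval_X] at h2
    exact h2
  have hroot : ∀ z : ℂ, aeval z c1 = 0 ↔ aeval z E = 0 := by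
    intro z
    constructor
    · intro hz
      have hzn : z ^ n = 1 := by
        have := hWz z
        rw [hz, zero_mul] at this
        exact sub_eq_zero.mp this
      have h2 := hTz z
      rw [hzn, sub_self] at h2
      exact (mul_eq_zero.mp h2).resolve_right ((D.ne z hzn).mpr hz)
    · intro hz
      have hzn : z ^ n = 1 := by
        have := hTz z
        rw [hz, zero_mul] at this
        exact (sub_eq_zero.mp this.symm).symm
      rw [← D.ne z hzn]
      intro h0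
      have h2 := congrArg (fun p : ℤ[X] => aeval z (derivative p)) hT
      simp only [derivative_mul, map_add, map_mul, hz, h0, mul_zero, zero_mul, add_zero,
        derivative_one, derivative_X_pow, map_sub, map_zero, map_pow,
        aeval_X] at h2
      rw [zero_sub, eq_comm, neg_eq_zero, mul_eq_zero] at h2
      rcases h2 with h2 | h2
      · apply hn0
        simpa using h2
      · have h3 : z = 0 := by
          by_contra hne
          exact pow_ne_zero _ hne h2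
        rw [h3, zero_pow hn.ne'] at hzn
        exact zero_ne_one hzn
  have hinj : Function.Injective (algebraMap ℤ ℂ) := Int.cast_injective
  have hx0 : (1 - X ^ n : ℤ[X]) ≠ 0 := by
    have h2 := (xn_monic hn).ne_zero
    intro h3
    apply h2
    linear_combination -h3
  have hE0 : E ≠ 0 := by
    rintro rfl
    rw [zero_mul] at hT
    exact hx0 hT.symm
  have hc0 : c1 ≠ 0 := by
    intro h2
    have h3 := D.c0
    rw [h2, coeff_zero] at h3
    exact zero_ne_one h3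
  have hE0' : E.map (algebraMap ℤ ℂ) ≠ 0 := (Polynomial.map_ne_zero_iff hinj).mpr hE0
  have hc0' : c1.map (algebraMap ℤ ℂ) ≠ 0 := (Polynomial.map_ne_zero_iff hinj).mpr hc0
  have hEd : E.map (algebraMap ℤ ℂ) ∣ X ^ n - 1 := by
    rw [← xn_map]
    refine Polynomial.map_dvd _ ⟨-T, ?_⟩
    linear_combination hT
  have hcd : c1.map (algebraMap ℤ ℂ) ∣ X ^ n - 1 := by
    rw [← xn_map]
    exact Polynomial.map_dvd _ ⟨W, D.hW⟩
  have hroots : (c1.map (algebraMap ℤ ℂ)).roots = (E.map (algebraMap ℤ ℂ)).roots := by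
    rw [Multiset.Nodup.ext (Multiset.nodup_of_le (roots.le_of_dvd (xn_ne hn) hcd) (roots_nodup hn))
      (Multiset.nodup_of_le (roots.le_of_dvd (xn_ne hn) hEd) (roots_nodup hn))]
    intro z
    rw [mem_roots hc0', mem_roots hE0', IsRoot.def, IsRoot.def, av_map, av_map]
    exact hroot z
  obtain ⟨u, hu⟩ := (IsAlgClosed.associated_iff_roots_eq_roots hc0' hE0').mpr hroots
  obtain ⟨v, hv, hvu⟩ := isUnit_iff.mp u.isUnit
  have hE00 : E.coeff 0 = 1 := by
    rw [hE, coeff_sub, coeff_one_zero, coeff_C_mul, coeff_X_pow, if_neg (by lia), mul_zero,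
      sub_zero]
  have hv1 : v = 1 := by
    have h2 := congrArg (fun p : ℂ[X] => p.coeff 0) hu
    simp only [mul_coeff_zero, coeff_map, D.c0, hE00, map_one, one_mul] at h2
    rw [← hvu, coeff_C_zero] at h2
    exact h2
  have hcE : c1 = E := by
    apply map_injective _ hinj
    rw [← hu, ← hvu, hv1, C_1, mul_one]
  refine ⟨d, ep, hd, hep, by rw [hcE, hE], fun z hz => ?_⟩
  have hWT : W = -T := by
    have h3 : c1 * W = c1 * -T := by
      rw [← D.hW, hcE]
      linear_combination hT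
    exact mul_left_cancel₀ hc0 h3
  have hzn : z ^ n = 1 := by
    have := hWz z
    rw [hz, zero_mul] at this
    exact sub_eq_zero.mp this
  have h2 := D.val z hzn
  rw [hWT, map_neg, mul_neg, neg_neg] at h2
  exact (mul_right_cancel₀ ((D.ne z hzn).mpr hz) h2).symm

theorem real_neg {A : ℂ} (h1 : A.im = 0) (h2 : A.re ≤ 0) (h3 : A ≠ 0) : A.re < 0 := by
  refine lt_of_le_of_ne h2 fun h => h3 ?_
  exact Complex.ext (by rw [h, Complex.zero_re]) (by rw [h1, Complex.zero_im])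

/-- SIMPLE ZEROS of the content on the circle. -/
theorem simple_ov (hA5 : A5S) (hN : 3 ≤ N)
    (hp : p0 - p1 = C ((N : ℤ) - 1) * c1)
    (hcz : ∀ z : ℂ, ‖z‖ < 1 → aeval z c1 ≠ 0)
    (hz : ∀ z : ℂ, ‖z‖ ≤ 1 → aeval z p0 ≠ 0)
    (hle : ∀ z : ℂ, ‖z‖ = 1 → ‖aeval z p1‖ ≤ ‖aeval z p0‖) {z : ℂ} (hz1 : ‖z‖ = 1)
    (hcz0 : aeval z c1 = 0) : aeval z (derivative c1) ≠ 0 := by
  have hNr : (3 : ℝ) ≤ N := by exact_mod_cast hN
  have hdiff : ∀ z : ℂ, aeval z p0 - aeval z p1 = ((N : ℂ) - 1) * aeval z c1 := by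
    intro z
    have h4 := congrArg (aeval z) hp
    rw [map_sub, map_mul, aeval_C] at h4
    have h5 : (algebraMap ℤ ℂ) ((N : ℤ) - 1) = (N : ℂ) - 1 := by simp
    rw [h5] at h4
    exact h4
  obtain ⟨P, hP⟩ : ∃ P : ℂ[X], P = p0.map (algebraMap ℤ ℂ) := ⟨_, rfl⟩
  obtain ⟨Q, hQ⟩ : ∃ Q : ℂ[X], Q = p1.map (algebraMap ℤ ℂ) := ⟨_, rfl⟩
  have hPz : ∀ z, P.eval z = aeval z p0 := fun z => by rw [hP, av_map]
  have hQz : ∀ z, Q.eval z = aeval z p1 := fun z => by rw [hQ, av_map]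
  have hmax : ∀ z : ℂ, ‖z‖ ≤ 1 → ‖aeval z p1‖ ≤ ‖aeval z p0‖ := by
    intro z hz1
    have h1 := H29.mxp (q := P) (v := P - Q) (fun w hw => by rw [hPz]; exact hz w hw) (by
      intro w hw
      rw [eval_sub, hPz, hQz, sub_sub_cancel_left, norm_neg]
      exact hle w hw) z hz1
    rw [eval_sub, hPz, hQz, sub_sub_cancel_left, norm_neg] at h1
    exact h1
  obtain ⟨B, hB⟩ : ∃ B : ℝ, ∀ z : ℂ, ‖z‖ < 1 →
      ‖P.eval z‖ * (1 - ‖z‖) ≤ B * ‖(c1.map (algebraMap ℤ ℂ)).eval z‖ := by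
    refine ⟨(2 * (‖P.coeff 0‖ / ‖P.coeff 0 + 1 * (-Q).coeff 0‖) + 2) * ‖(N : ℂ) - 1‖,
      fun z hz1 => ?_⟩
    have hsum : ∀ w : ℂ, P.eval w + 1 * (-Q).eval w =
        ((N : ℂ) - 1) * (c1.map (algebraMap ℤ ℂ)).eval w := by
      intro w
      rw [av_map, ← hdiff, eval_neg, hPz, hQz]
      ring
    have h1 := hA5 P (-Q) 1 norm_one (by
      intro s hs
      rw [eval_neg, norm_neg, hPz, hQz]
      exact hmax s hs.le) (by
      intro s hs
      rw [hsum]
      refine mul_ne_zero ?_ ?_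
      · intro h
        have h2 := congrArg Complex.re h
        simp at h2
        linarith
      · rw [av_map]
        exact hcz s hs) z hz1
    rw [hsum, norm_mul] at h1
    linarith
  have hroot : (c1.map (algebraMap ℤ ℂ)).IsRoot z := by
    rw [IsRoot.def, av_map]
    exact hcz0
  obtain ⟨g, hg⟩ := dvd_iff_isRoot.mpr hroot
  have h1 := simple_res hz1 (by rw [hPz]; exact hz z hz1.le) hB hg
  have h2 := congrArg (fun p : ℂ[X] => eval z (derivative p)) hg
  simp only [derivative_mul, derivative_sub, derivative_X, derivative_C, sub_zero, eval_add,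
    eval_mul, eval_sub, eval_X, eval_C, sub_self, zero_mul, add_zero, one_mul,
    derivative_map, av_map] at h2
  rw [h2]
  exact h1

/-- ONE VARIABLE. -/
theorem ov (hA5 : A5S) (hA7 : A7S) {kap : ℤ[X]} {m : ℕ} (hN : 3 ≤ N)
    (hp : p0 - p1 = C ((N : ℤ) - 1) * c1) (hc0 : c1.coeff 0 = 1) (hp0 : p0.coeff 0 = N)
    (hcz : ∀ z : ℂ, ‖z‖ < 1 → aeval z c1 ≠ 0)
    (hz : ∀ z : ℂ, ‖z‖ ≤ 1 → aeval z p0 ≠ 0)
    (hle : ∀ z : ℂ, ‖z‖ = 1 → ‖aeval z p1‖ ≤ ‖aeval z p0‖)
    (hne : ∃ z : ℂ, ‖z‖ = 1 ∧ ‖aeval z p1‖ ≠ ‖aeval z p0‖)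
    (hk : ∀ z : ℂ, ‖z‖ = 1 → aeval z c1 = 0 →
      z ^ m * aeval z p0 = ((N : ℂ) - 1) * aeval z kap)
    (hu : ¬ IsUnit c1) :
    ∃ (d : ℕ) (ep : ℤ), 1 ≤ d ∧ (ep = 1 ∨ ep = -1) ∧ c1 = 1 - C ep * X ^ d ∧
      ∀ z : ℂ, aeval z c1 = 0 → aeval z p0 = N - 1 := by
  classical
  have hNr : (3 : ℝ) ≤ N := by exact_mod_cast hN
  have hinj : Function.Injective (algebraMap ℤ ℂ) := Int.cast_injective
  obtain ⟨-, n, μ, hn, hdvd⟩ := Dcm.kron hA7 _ c1 rfl (by rw [hc0]; exact isUnit_one) (by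
    intro z hz1
    have h1 := hcz z hz1
    rwa [← av_map] at h1)
  have hzn' : ∀ z : ℂ, aeval z c1 = 0 → z ^ n = 1 := by
    intro z hz0
    obtain ⟨t, ht⟩ := hdvd
    have h6 : aeval z ((X ^ n - 1 : ℤ[X]) ^ μ) = 0 := by
      rw [ht, map_mul, hz0, zero_mul]
    rw [map_pow, map_sub, map_pow, aeval_X, map_one] at h6
    by_contra hne
    exact pow_ne_zero μ (sub_ne_zero.mpr hne) h6
  have hz1' : ∀ z : ℂ, z ^ n = 1 → ‖z‖ = 1 := fun z h =>
    Complex.norm_eq_one_of_pow_eq_one h hn.ne'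
  have hdiff : ∀ z : ℂ, aeval z p0 - aeval z p1 = ((N : ℂ) - 1) * aeval z c1 := by
    intro z
    have h4 := congrArg (aeval z) hp
    rw [map_sub, map_mul, aeval_C] at h4
    have h5 : (algebraMap ℤ ℂ) ((N : ℤ) - 1) = (N : ℂ) - 1 := by simp
    rw [h5] at h4
    exact h4
  obtain ⟨P, hP⟩ : ∃ P : ℂ[X], P = p0.map (algebraMap ℤ ℂ) := ⟨_, rfl⟩
  obtain ⟨Q, hQ⟩ : ∃ Q : ℂ[X], Q = p1.map (algebraMap ℤ ℂ) := ⟨_, rfl⟩
  have hPz : ∀ z, P.eval z = aeval z p0 := fun z => by rw [hP, av_map]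
  have hQz : ∀ z, Q.eval z = aeval z p1 := fun z => by rw [hQ, av_map]
  have hmax : ∀ z : ℂ, ‖z‖ ≤ 1 → ‖aeval z p1‖ ≤ ‖aeval z p0‖ := by
    intro z hz1
    have h1 := H29.mxp (q := P) (v := P - Q) (fun w hw => by rw [hPz]; exact hz w hw) (by
      intro w hw
      rw [eval_sub, hPz, hQz, sub_sub_cancel_left, norm_neg]
      exact hle w hw) z hz1
    rw [eval_sub, hPz, hQz, sub_sub_cancel_left, norm_neg] at h1
    exact h1
  have hre : ∀ z : ℂ, ‖z‖ ≤ 1 →
      0 ≤ ((c1.map (algebraMap ℤ ℂ)).eval z * conj (P.eval z)).re := by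
    intro z hz1
    rw [av_map, hPz]
    have h1 := hmax z hz1
    have h2 : aeval z p1 = aeval z p0 - (((N : ℝ) - 1 : ℝ) : ℂ) * aeval z c1 := by
      have := hdiff z
      push_cast
      linear_combination -this
    rw [h2] at h1
    obtain ⟨x, hx⟩ : ∃ x : ℂ, x = aeval z p0 := ⟨_, rfl⟩
    obtain ⟨y, hy⟩ : ∃ y : ℂ, y = aeval z c1 := ⟨_, rfl⟩
    rw [← hx, ← hy] at h1 ⊢
    have h3 : ‖x - (((N : ℝ) - 1 : ℝ) : ℂ) * y‖ ^ 2 ≤ ‖x‖ ^ 2 :=
      pow_le_pow_left₀ (norm_nonneg _) h1 2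
    rw [← Complex.normSq_eq_norm_sq, ← Complex.normSq_eq_norm_sq, Complex.normSq_apply,
      Complex.normSq_apply] at h3
    simp only [Complex.sub_re, Complex.sub_im, Complex.re_ofReal_mul, Complex.im_ofReal_mul] at h3
    simp only [Complex.mul_re, Complex.conj_re, Complex.conj_im]
    have h4 : 0 < (N : ℝ) - 1 := by linarith
    have h5 : 0 ≤ ((N : ℝ) - 1) * (y.re * x.re + y.im * x.im) := by
      nlinarith [mul_self_nonneg (((N : ℝ) - 1) * y.re), mul_self_nonneg (((N : ℝ) - 1) * y.im)]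
    have h6 := nonneg_of_mul_nonneg_right h5 h4
    linarith
  obtain ⟨B, hB⟩ : ∃ B : ℝ, ∀ z : ℂ, ‖z‖ < 1 →
      ‖P.eval z‖ * (1 - ‖z‖) ≤ B * ‖(c1.map (algebraMap ℤ ℂ)).eval z‖ := by
    refine ⟨(2 * (‖P.coeff 0‖ / ‖P.coeff 0 + 1 * (-Q).coeff 0‖) + 2) * ‖(N : ℂ) - 1‖,
      fun z hz1 => ?_⟩
    have hsum : ∀ w : ℂ, P.eval w + 1 * (-Q).eval w =
        ((N : ℂ) - 1) * (c1.map (algebraMap ℤ ℂ)).eval w := by
      intro w
      rw [av_map, ← hdiff, eval_neg, hPz, hQz]
      ring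
    have h1 := hA5 P (-Q) 1 norm_one (by
      intro s hs
      rw [eval_neg, norm_neg, hPz, hQz]
      exact hmax s hs.le) (by
      intro s hs
      rw [hsum]
      refine mul_ne_zero ?_ ?_
      · intro h
        have h2 := congrArg Complex.re h
        simp at h2
        linarith
      · rw [av_map]
        exact hcz s hs) z hz1
    rw [hsum, norm_mul] at h1
    linarith
  have hsimple : ∀ (z : ℂ) (g : ℂ[X]),
      c1.map (algebraMap ℤ ℂ) = (X - C z) * g → g.eval z ≠ 0 := by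
    intro z g hg
    have h0 : aeval z c1 = 0 := by
      rw [← av_map, hg, eval_mul, eval_sub, eval_X, eval_C, sub_self, zero_mul]
    have h1 := hz1' z (hzn' z h0)
    exact simple_res h1 (by rw [hPz]; exact hz z h1.le) hB hg
  obtain ⟨W, hW⟩ := dvd_cyc hn hdvd hsimple
  obtain ⟨T, hT⟩ : ∃ T : ℤ[X], T = (kap * X ^ ((n - 1) * m) * -W) %ₘ (X ^ n - 1) := ⟨_, rfl⟩
  have hxn : (X ^ n - 1 : ℤ[X]).natDegree = n := by
    have := natDegree_X_pow_sub_C (n := n) (r := (1 : ℤ))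
    rwa [C_1] at this
  have hdeg : T.natDegree < n := by
    have h1 := natDegree_modByMonic_lt (kap * X ^ ((n - 1) * m) * -W) (xn_monic hn) (by
      intro h
      rw [h, natDegree_one] at hxn
      lia)
    rw [hxn] at h1
    rw [hT]
    exact h1
  have hTz : ∀ z : ℂ, z ^ n = 1 →
      aeval z T = -(aeval z kap * z ^ ((n - 1) * m) * aeval z W) := by
    intro z hz1
    have h1 := modByMonic_add_div (kap * X ^ ((n - 1) * m) * -W) (X ^ n - 1 : ℤ[X])
    rw [← hT] at h1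
    have h2 := congrArg (aeval z) h1
    simp only [map_add, map_mul, map_sub, map_pow, aeval_X, map_one, hz1, sub_self, zero_mul,
      add_zero, map_neg] at h2
    rw [h2]
    ring
  have hWz : ∀ z : ℂ, z ^ n - 1 = aeval z c1 * aeval z W := by
    intro z
    have h1 := congrArg (aeval z) hW
    rw [map_sub, map_pow, aeval_X, map_one, map_mul] at h1
    exact h1
  have hW0 : ∀ z : ℂ, z ^ n = 1 → aeval z c1 ≠ 0 → aeval z W = 0 := by
    intro z hz1 hc
    have h1 := hWz z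
    rw [hz1, sub_self] at h1
    exact (mul_eq_zero.mp h1.symm).resolve_left hc
  have hval : ∀ z : ℂ, z ^ n = 1 → ((N : ℂ) - 1) * aeval z T = -(aeval z p0 * aeval z W) := by
    intro z hz1
    by_cases hc : aeval z c1 = 0
    · have h1 := hk z (hz1' z hz1) hc
      have h2 : z ^ m * z ^ ((n - 1) * m) = 1 := by
        rw [← pow_add]
        have h3 : m + (n - 1) * m = n * m := by
          obtain ⟨l, rfl⟩ : ∃ l, n = l + 1 := ⟨n - 1, by lia⟩
          rw [Nat.add_sub_cancel]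
          ring
        rw [h3, pow_mul, hz1, one_pow]
      rw [hTz z hz1]
      linear_combination (z ^ ((n - 1) * m) * aeval z W) * h1 - (aeval z p0 * aeval z W) * h2
    · rw [hTz z hz1, hW0 z hz1 hc]
      ring
  have hcase : ∀ z : ℂ, z ^ n = 1 → aeval z c1 = 0 → (aeval z T).im = 0 ∧ 0 < (aeval z T).re := by
    intro z hz1 hc
    have hζ := hz1' z hz1
    have hroot : (c1.map (algebraMap ℤ ℂ)).IsRoot z := by
      rw [IsRoot.def, av_map]
      exact hc
    obtain ⟨g, hg⟩ := dvd_iff_isRoot.mpr hroot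
    have hgz := hsimple z g hg
    have hp0z : aeval z p0 ≠ 0 := hz z hζ.le
    obtain ⟨h1, h2⟩ := neg_res (p := P) hζ hg hre
    have hz0 : z ≠ 0 := by
      intro h
      rw [h, norm_zero] at hζ
      exact zero_ne_one hζ
    have h3 : z * g.eval z * conj (P.eval z) ≠ 0 := by
      refine mul_ne_zero (mul_ne_zero hz0 hgz) ?_
      rw [hPz]
      exact (_root_.map_ne_zero _).mpr hp0z
    have h4 : z * g.eval z * aeval z W = n := by
      have h5 : (X ^ n - 1 : ℂ[X]) = (X - C z) * g * W.map (algebraMap ℤ ℂ) := by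
        rw [← hg, ← Polynomial.map_mul, ← hW, xn_map]
      have h6 := congrArg (fun p : ℂ[X] => eval z (derivative p)) h5
      simp only [derivative_mul, derivative_sub, derivative_X_pow, derivative_one, derivative_X,
        derivative_C, sub_zero, eval_add, eval_mul, eval_sub, eval_X, eval_C, sub_self, zero_mul,
        add_zero, eval_pow, one_mul, av_map, eval_natCast, map_natCast] at h6
      have h7 : z * z ^ (n - 1) = 1 := by
        rw [← pow_succ', Nat.sub_add_cancel hn, hz1]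
      linear_combination -z * h6 + (n : ℂ) * h7
    refine real_of (a := (N : ℝ) - 1) (s := n * ‖aeval z p0‖ ^ 2) (by linarith) ?_ h1
      (real_neg h1 h2 h3) ?_
    · have h8 : (0 : ℝ) < n := by exact_mod_cast hn
      have h9 : 0 < ‖aeval z p0‖ := norm_pos_iff.mpr hp0z
      positivity
    · have h8 : (((N : ℝ) - 1 : ℝ) : ℂ) = (N : ℂ) - 1 := by push_cast; ring
      have h9 : aeval z p0 * conj (aeval z p0) = ((‖aeval z p0‖ ^ 2 : ℝ) : ℂ) := by
        rw [Complex.mul_conj, Complex.normSq_eq_norm_sq]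
      rw [h8, hval z hz1, hPz]
      push_cast at h9 ⊢
      linear_combination -(aeval z p0 * conj (aeval z p0)) * h4 - (n : ℂ) * h9
  have hcase0 : ∀ z : ℂ, z ^ n = 1 → aeval z c1 ≠ 0 → aeval z T = 0 := by
    intro z hz1 hc
    rw [hTz z hz1, hW0 z hz1 hc, mul_zero, neg_zero]
  have D : Dat N n p0 p1 c1 W T := by
    refine ⟨hN, hn, hp, hc0, hp0, hle, hne, hW, hdeg, ?_, ?_, ?_, hval⟩
    · intro z hz1
      by_cases hc : aeval z c1 = 0
      · exact (hcase z hz1 hc).1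
      · rw [hcase0 z hz1 hc, Complex.zero_im]
    · intro z hz1
      by_cases hc : aeval z c1 = 0
      · exact (hcase z hz1 hc).2.le
      · rw [hcase0 z hz1 hc, Complex.zero_re]
    · intro z hz1
      constructor
      · intro h
        by_contra hc
        exact h (hcase0 z hz1 hc)
      · intro hc h
        have h1 := (hcase z hz1 hc).2
        rw [h, Complex.zero_re] at h1
        exact lt_irrefl _ h1
  refine fin D (mass D ?_)
  by_contra hcon
  push Not at hcon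
  apply hu
  have h1 : (c1.map (algebraMap ℤ ℂ)).degree = 0 := by
    by_contra h2
    obtain ⟨z, hz0⟩ := IsAlgClosed.exists_root _ h2
    rw [IsRoot.def, av_map] at hz0
    exact hcon z hz0
  rw [degree_map_eq_of_injective hinj] at h1
  rw [eq_C_of_degree_eq_zero h1, hc0]
  exact isUnit_one.map C

end Pool.Agent.B5.UF.H74
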