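import Pool.Agent.Lib.MP_b5021c_nt.UF.H74.Dft

/-!
# MP_b5021c_nt, chapter UF, row UF_C2 (helper74): integer polynomials which are nonnegative on the
roots of unity
-/

namespace Pool.Agent.B5.UF.H74

open Polynomial
open scoped ComplexConjugate Topology

theorem av_map (z : ℂ) (p : ℤ[X]) : (p.map (algebraMap ℤ ℂ)).eval z = aeval z p := by
  rw [eval_map_algebraMap]

theorem roots_nodup {n : ℕ} (hn : 0 < n) : (X ^ n - 1 : ℂ[X]).roots.Nodup := by
  have h1 : (X ^ n - C 1 : ℂ[X]).Separable :=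
    separable_X_pow_sub_C 1 (by exact_mod_cast hn.ne') one_ne_zero
  rw [C_1] at h1
  exact nodup_roots h1

theorem xn_ne {n : ℕ} (hn : 0 < n) : (X ^ n - 1 : ℂ[X]) ≠ 0 := by
  have := monic_X_pow_sub_C (1 : ℂ) hn.ne'
  rw [C_1] at this
  exact this.ne_zero

theorem xn_monic {n : ℕ} (hn : 0 < n) : (X ^ n - 1 : ℤ[X]).Monic := by
  have := monic_X_pow_sub_C (1 : ℤ) hn.ne'
  rwa [C_1] at this

theorem xn_map (n : ℕ) : (X ^ n - 1 : ℤ[X]).map (algebraMap ℤ ℂ) = X ^ n - 1 := by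
  rw [Polynomial.map_sub, Polynomial.map_pow, map_X, Polynomial.map_one]

/-- Divisibility by `X^n - 1` is tested at the roots of unity. -/
theorem xn_dvd {n : ℕ} (hn : 0 < n) {Q : ℤ[X]} (h : ∀ z : ℂ, z ^ n = 1 → aeval z Q = 0) :
    (X ^ n - 1 : ℤ[X]) ∣ Q := by
  classical
  rw [← map_dvd_map (algebraMap ℤ ℂ) Int.cast_injective (xn_monic hn), xn_map]
  by_cases hQ : Q.map (algebraMap ℤ ℂ) = 0
  · rw [hQ]
    exact dvd_zero _
  · refine (IsAlgClosed.splits (X ^ n - 1 : ℂ[X])).dvd_of_roots_le_roots (xn_ne hn) ?_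
    rw [Multiset.le_iff_subset (roots_nodup hn)]
    intro z hz
    rw [mem_roots (xn_ne hn), IsRoot.def, eval_sub, eval_pow, eval_X, eval_one, sub_eq_zero] at hz
    rw [mem_roots hQ, IsRoot.def, av_map]
    exact h z hz

/-- A divisor of `(X^n - 1)^μ` with simple zeros divides `X^n - 1`. -/
theorem dvd_cyc {c : ℤ[X]} {n μ : ℕ} (hn : 0 < n) (hd : c ∣ (X ^ n - 1) ^ μ)
    (hs : ∀ (z : ℂ) (g : ℂ[X]), c.map (algebraMap ℤ ℂ) = (X - C z) * g → g.eval z ≠ 0) :
    c ∣ X ^ n - 1 := by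
  classical
  obtain ⟨t, ht⟩ := hd
  have h1 : c.leadingCoeff * t.leadingCoeff = 1 := by
    rw [← leadingCoeff_mul, ← ht]
    exact ((xn_monic hn).pow μ).leadingCoeff
  have h2 : IsUnit c.leadingCoeff := IsUnit.of_mul_eq_one _ h1
  have hm : (C t.leadingCoeff * c).Monic := by
    rw [Monic, leadingCoeff_mul, leadingCoeff_C, mul_comm]
    exact h1
  have h3 : c ∣ C t.leadingCoeff * c := dvd_mul_left _ _
  refine h3.trans ?_
  rw [← map_dvd_map (algebraMap ℤ ℂ) Int.cast_injective hm, xn_map]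
  have hm' := hm.map (algebraMap ℤ ℂ)
  refine (IsAlgClosed.splits _).dvd_of_roots_le_roots hm'.ne_zero ?_
  have hu : IsUnit (C t.leadingCoeff : ℤ[X]) :=
    isUnit_C.mpr (IsUnit.of_mul_eq_one _ (by rw [mul_comm]; exact h1))
  have hc0 : c.map (algebraMap ℤ ℂ) ≠ 0 := by
    intro h0
    apply hm'.ne_zero
    rw [Polynomial.map_mul, h0, mul_zero]
  have hroot : ((C t.leadingCoeff * c).map (algebraMap ℤ ℂ)).roots =
      (c.map (algebraMap ℤ ℂ)).roots := by
    rw [Polynomial.map_mul, map_C]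
    refine roots_C_mul _ ?_
    have h4 : t.leadingCoeff ≠ 0 := right_ne_zero_of_mul_eq_one h1
    intro h5
    exact h4 (Int.cast_injective (α := ℂ) (h5.trans Int.cast_zero.symm))
  rw [hroot]
  have hnd : (c.map (algebraMap ℤ ℂ)).roots.Nodup := by
    rw [Multiset.nodup_iff_count_le_one]
    intro a
    by_contra hcon
    push Not at hcon
    rw [count_roots] at hcon
    have h5 : (X - C a) ^ 2 ∣ c.map (algebraMap ℤ ℂ) := by
      rw [← le_rootMultiplicity_iff hc0]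
      exact hcon
    obtain ⟨g, hg⟩ := h5
    refine hs a ((X - C a) * g) ?_ ?_
    · rw [hg]
      ring
    · rw [eval_mul, eval_sub, eval_X, eval_C, sub_self, zero_mul]
  rw [Multiset.le_iff_subset hnd]
  intro z hz
  rw [mem_roots hc0, IsRoot.def, av_map] at hz
  have h6 : aeval z ((X ^ n - 1 : ℤ[X]) ^ μ) = 0 := by
    rw [ht, map_mul, hz, zero_mul]
  rw [map_pow, map_sub, map_pow, aeval_X, map_one] at h6
  rw [mem_roots (xn_ne hn), IsRoot.def, eval_sub, eval_pow, eval_X, eval_one]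
  by_contra hne
  exact pow_ne_zero μ hne h6

section

variable {n : ℕ} {T : ℤ[X]}

/-- `2 Re (T/(1 - z^n)) = T(0)` on the circle. -/
theorem re_half (hn : 0 < n) (hdeg : T.natDegree < n)
    (hT : ∀ z : ℂ, z ^ n = 1 → (aeval z T).im = 0) {z : ℂ} (hz : ‖z‖ = 1)
    (hzn : z ^ n ≠ 1) : 2 * (aeval z T / (1 - z ^ n)).re = T.coeff 0 := by
  have hw := Complex.isPrimitiveRoot_exp n hn.ne'
  obtain ⟨w, hwdef⟩ : ∃ w, w = Complex.exp (2 * Real.pi * Complex.I / n) := ⟨_, rfl⟩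
  rw [← hwdef] at hw
  have hn0 : (n : ℂ) ≠ 0 := by exact_mod_cast hn.ne'
  have hw0 : w ≠ 0 := hw.ne_zero hn.ne'
  have hdeg' : (T.map (algebraMap ℤ ℂ)).natDegree < n := natDegree_map_le.trans_lt hdeg
  have hj : ∀ j, (w ^ j) ^ n = 1 := by
    intro j
    rw [← pow_mul, mul_comm, pow_mul, hw.pow_eq_one, one_pow]
  have hsub : (1 : ℂ) - z ^ n ≠ 0 := sub_ne_zero.mpr (Ne.symm hzn)
  have hu : ∀ j, z * (w ^ j)⁻¹ ≠ 1 := by
    intro j h0
    apply hzn
    rw [mul_inv_eq_one₀ (pow_ne_zero _ hw0)] at h0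
    rw [h0, hj]
  have h1 : (n : ℂ) * aeval z T = ∑ j ∈ Finset.range n,
      aeval (w ^ j) T * ((1 - z ^ n) * (1 - z * (w ^ j)⁻¹)⁻¹) := by
    have h2 : (n : ℂ) * aeval z T = ∑ k ∈ Finset.range n,
        ((n : ℂ) * (T.map (algebraMap ℤ ℂ)).coeff k) * z ^ k := by
      rw [← av_map, eval_eq_sum_range' hdeg', Finset.mul_sum]
      exact Finset.sum_congr rfl fun k _ => by ring
    rw [h2]
    have h3 : ∀ k ∈ Finset.range n, ((n : ℂ) * (T.map (algebraMap ℤ ℂ)).coeff k) * z ^ k =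
        ∑ j ∈ Finset.range n, aeval (w ^ j) T * (z * (w ^ j)⁻¹) ^ k := by
      intro k hk
      rw [← dft hw _ hdeg' (Finset.mem_range.mp hk), Finset.sum_mul]
      refine Finset.sum_congr rfl fun j _ => ?_
      rw [av_map, mul_pow]
      ring
    rw [Finset.sum_congr rfl h3, Finset.sum_comm]
    refine Finset.sum_congr rfl fun j _ => ?_
    rw [← Finset.mul_sum]
    congr 1
    have h4 := geom_sum_mul (z * (w ^ j)⁻¹) n
    have h5 : (z * (w ^ j)⁻¹) ^ n = z ^ n := by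
      rw [mul_pow, inv_pow, hj, inv_one, mul_one]
    rw [h5] at h4
    have h6 : (1 : ℂ) - z * (w ^ j)⁻¹ ≠ 0 := sub_ne_zero.mpr (Ne.symm (hu j))
    rw [eq_mul_inv_iff_mul_eq₀ h6]
    linear_combination -h4
  have h7 : (n : ℂ) * (aeval z T / (1 - z ^ n)) = ∑ j ∈ Finset.range n,
      aeval (w ^ j) T * (1 - z * (w ^ j)⁻¹)⁻¹ := by
    rw [← mul_div_assoc, h1, Finset.sum_div]
    refine Finset.sum_congr rfl fun j _ => ?_
    field_simp
  have h8 : ∀ j, (aeval (w ^ j) T * (1 - z * (w ^ j)⁻¹)⁻¹).re = (aeval (w ^ j) T).re / 2 := by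
    intro j
    have h9 := hT (w ^ j) (hj j)
    rw [Complex.mul_re, h9, zero_mul, sub_zero]
    have h10 : ((1 - z * (w ^ j)⁻¹)⁻¹).re = 1 / 2 := by
      obtain ⟨u, hudef⟩ : ∃ u, u = z * (w ^ j)⁻¹ := ⟨_, rfl⟩
      have hu1 : ‖u‖ = 1 := by
        have h11 : ‖w ^ j‖ = 1 := Complex.norm_eq_one_of_pow_eq_one (hj j) hn.ne'
        rw [hudef, norm_mul, hz, norm_inv, h11]
        norm_num
      have hu2 := hu j
      rw [← hudef] at hu2 ⊢
      have hsq : Complex.normSq u = 1 := by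
        rw [Complex.normSq_eq_norm_sq, hu1, one_pow]
      have h12 : Complex.normSq (1 - u) = 2 * (1 - u.re) := by
        rw [Complex.normSq_apply] at hsq ⊢
        simp only [Complex.sub_re, Complex.one_re, Complex.sub_im, Complex.one_im]
        nlinarith
      have h13 : Complex.normSq (1 - u) ≠ 0 := by
        rw [ne_eq, Complex.normSq_eq_zero]
        exact sub_ne_zero.mpr (Ne.symm hu2)
      rw [Complex.inv_re, h12, Complex.sub_re, Complex.one_re]
      rw [h12] at h13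
      field_simp
      have h14 : (1 : ℝ) - u.re ≠ 0 := right_ne_zero_of_mul h13
      field_simp
    rw [h10]
    ring
  have h15 : (n : ℝ) * (aeval z T / (1 - z ^ n)).re = (∑ j ∈ Finset.range n,
      (aeval (w ^ j) T).re) / 2 := by
    have h16 := congrArg Complex.re h7
    rw [Complex.re_sum, Finset.sum_congr rfl (fun j _ => h8 j), ← Finset.sum_div] at h16
    rw [← h16]
    simp
  have h17 : (∑ j ∈ Finset.range n, (aeval (w ^ j) T).re) = n * T.coeff 0 := by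
    have h18 := dft hw _ hdeg' hn
    simp only [pow_zero, mul_one, av_map] at h18
    have h19 := congrArg Complex.re h18
    rw [Complex.re_sum] at h19
    rw [h19, coeff_map]
    simp
  rw [h17] at h15
  have hn1 : (n : ℝ) ≠ 0 := by exact_mod_cast hn.ne'
  have h20 : (n : ℝ) * (2 * (aeval z T / (1 - z ^ n)).re) = n * T.coeff 0 := by
    linear_combination 2 * h15
  exact mul_left_cancel₀ hn1 h20

/-- The mean over the roots of unity. -/
theorem coeff0_pos (hn : 0 < n) (hdeg : T.natDegree < n)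
    (hT : ∀ z : ℂ, z ^ n = 1 → 0 ≤ (aeval z T).re) {z : ℂ} (hz : z ^ n = 1)
    (hz0 : 0 < (aeval z T).re) : 0 < T.coeff 0 := by
  have hnz : NeZero n := ⟨hn.ne'⟩
  have hw := Complex.isPrimitiveRoot_exp n hn.ne'
  obtain ⟨w, hwdef⟩ : ∃ w, w = Complex.exp (2 * Real.pi * Complex.I / n) := ⟨_, rfl⟩
  rw [← hwdef] at hw
  have hdeg' : (T.map (algebraMap ℤ ℂ)).natDegree < n := natDegree_map_le.trans_lt hdeg
  have hj : ∀ j, (w ^ j) ^ n = 1 := by
    intro j
    rw [← pow_mul, mul_comm, pow_mul, hw.pow_eq_one, one_pow]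
  have h17 : (∑ j ∈ Finset.range n, (aeval (w ^ j) T).re) = n * T.coeff 0 := by
    have h18 := dft hw _ hdeg' hn
    simp only [pow_zero, mul_one, av_map] at h18
    have h19 := congrArg Complex.re h18
    rw [Complex.re_sum] at h19
    rw [h19, coeff_map]
    simp
  obtain ⟨j, hjn, hjz⟩ := hw.eq_pow_of_pow_eq_one hz
  have h1 : 0 < ∑ j ∈ Finset.range n, (aeval (w ^ j) T).re := by
    refine Finset.sum_pos' (fun i _ => hT _ (hj i)) ⟨j, Finset.mem_range.mpr hjn, ?_⟩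
    rw [hjz]
    exact hz0
  rw [h17] at h1
  have h2 : (0 : ℝ) < n := by exact_mod_cast hn
  have h3 : (0 : ℝ) < T.coeff 0 := pos_of_mul_pos_right h1 h2.le
  exact_mod_cast h3

theorem unit_re {u : ℂ} (hu : ‖u‖ = 1) : u.re ≤ 1 ∧ (u.re = 1 → u = 1) := by
  have h1 : u.re * u.re + u.im * u.im = 1 := by
    rw [← Complex.normSq_apply, Complex.normSq_eq_norm_sq, hu, one_pow]
  refine ⟨by nlinarith [mul_self_nonneg u.im], fun h => ?_⟩
  have h2 : u.im = 0 := by
    rw [h] at h1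
    have h3 : u.im * u.im = 0 := by linarith
    exact mul_self_eq_zero.mp h3
  exact Complex.ext (by rw [h, Complex.one_re]) (by rw [h2, Complex.one_im])

/-- `T ≥ 0` on the `n`-th roots of unity and `T(0) = 1`: `T = (1 - X^n)/(1 - ep X^d)`. -/
theorem cyc_pos (hn : 0 < n) (hdeg : T.natDegree < n)
    (hT : ∀ z : ℂ, z ^ n = 1 → (aeval z T).im = 0 ∧ 0 ≤ (aeval z T).re) (h1 : T.coeff 0 = 1) :
    ∃ (d : ℕ) (ep : ℤ), 1 ≤ d ∧ (ep = 1 ∨ ep = -1) ∧ (1 - C ep * X ^ d) * T = 1 - X ^ n := by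
  classical
  have hnz : NeZero n := ⟨hn.ne'⟩
  have hw := Complex.isPrimitiveRoot_exp n hn.ne'
  obtain ⟨w, hwdef⟩ : ∃ w, w = Complex.exp (2 * Real.pi * Complex.I / n) := ⟨_, rfl⟩
  rw [← hwdef] at hw
  have hn0 : (n : ℂ) ≠ 0 := by exact_mod_cast hn.ne'
  have hw0 : w ≠ 0 := hw.ne_zero hn.ne'
  have hdeg' : (T.map (algebraMap ℤ ℂ)).natDegree < n := natDegree_map_le.trans_lt hdeg
  have hj : ∀ j, (w ^ j) ^ n = 1 := by
    intro j
    rw [← pow_mul, mul_comm, pow_mul, hw.pow_eq_one, one_pow]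
  have hjn : ∀ j, ‖w ^ j‖ = 1 := fun j => Complex.norm_eq_one_of_pow_eq_one (hj j) hn.ne'
  obtain ⟨τ, hτ⟩ : ∃ τ : ℕ → ℝ, ∀ j, τ j = (aeval (w ^ j) T).re := ⟨_, fun j => rfl⟩
  have hτ0 : ∀ j, 0 ≤ τ j := by
    intro j
    rw [hτ]
    exact (hT _ (hj j)).2
  have hτc : ∀ j, aeval (w ^ j) T = (τ j : ℂ) := by
    intro j
    rw [hτ]
    exact Complex.ext (by simp) (by rw [(hT _ (hj j)).1]; simp)
  have hD : ∀ k, k < n → ∑ j ∈ Finset.range n, (τ j : ℂ) * ((w ^ j)⁻¹) ^ k = n * T.coeff k := by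
    intro k hk
    have h2 := dft hw _ hdeg' hk
    rw [coeff_map] at h2
    rw [show ((T.coeff k : ℤ) : ℂ) = algebraMap ℤ ℂ (T.coeff k) from rfl, ← h2]
    refine Finset.sum_congr rfl fun j _ => ?_
    rw [av_map, hτc]
  have hsum : ∑ j ∈ Finset.range n, τ j = n := by
    have h2 := hD 0 hn
    simp only [pow_zero, mul_one, h1, Int.cast_one] at h2
    exact_mod_cast h2
  obtain ⟨A, hA⟩ : ∃ A : ℕ → ℂ, ∀ k, A k = ∑ j ∈ Finset.range n, (τ j : ℂ) * ((w ^ j)⁻¹) ^ k :=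
    ⟨_, fun k => rfl⟩
  have hex : ∃ k, 1 ≤ k ∧ A k ≠ 0 := by
    refine ⟨n, hn, ?_⟩
    rw [hA]
    have h2 : ∀ j ∈ Finset.range n, (τ j : ℂ) * ((w ^ j)⁻¹) ^ n = τ j := by
      intro j _
      rw [inv_pow, hj, inv_one, mul_one]
    rw [Finset.sum_congr rfl h2, ← Complex.ofReal_sum, hsum]
    simpa using hn0
  have hAn : A n = n := by
    rw [hA]
    have h2 : ∀ j ∈ Finset.range n, (τ j : ℂ) * ((w ^ j)⁻¹) ^ n = τ j := by
      intro j _
      rw [inv_pow, hj, inv_one, mul_one]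
    rw [Finset.sum_congr rfl h2, ← Complex.ofReal_sum, hsum]
    simp
  obtain ⟨d, hd1, hd2, hd3⟩ : ∃ d, 1 ≤ d ∧ A d ≠ 0 ∧ ∀ k, 1 ≤ k → k < d → A k = 0 := by
    refine ⟨Nat.find hex, (Nat.find_spec hex).1, (Nat.find_spec hex).2, fun k h3 h4 => ?_⟩
    by_contra h5
    exact Nat.find_min hex h4 ⟨h3, h5⟩
  have hdn : d ≤ n := by
    by_contra hcon
    push Not at hcon
    have h2 := hd3 n hn hcon
    rw [hAn] at h2
    exact hn0 h2
  obtain ⟨ep, hep, hAd⟩ : ∃ ep : ℤ, (ep = 1 ∨ ep = -1) ∧ A d = n * ep := by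
    rcases eq_or_lt_of_le hdn with h2 | h2
    · exact ⟨1, Or.inl rfl, by rw [h2, hAn]; simp⟩
    · refine ⟨T.coeff d, ?_, by rw [hA, hD d h2]⟩
      have h3 : ‖A d‖ ≤ n := by
        rw [hA]
        refine (norm_sum_le _ _).trans ?_
        rw [← hsum]
        refine Finset.sum_le_sum fun j _ => ?_
        rw [norm_mul, norm_pow, norm_inv, hjn, inv_one, one_pow, mul_one, Complex.norm_real,
          Real.norm_eq_abs, abs_of_nonneg (hτ0 j)]
      rw [hA, hD d h2, norm_mul, Complex.norm_natCast, Complex.norm_intCast] at h3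
      have h4 : |(T.coeff d : ℝ)| ≤ 1 := by
        have h5 : (0 : ℝ) < n := by exact_mod_cast hn
        nlinarith
      have h6 : |T.coeff d| ≤ 1 := by exact_mod_cast h4
      have h7 : T.coeff d ≠ 0 := by
        intro h8
        apply hd2
        rw [hA, hD d h2, h8]
        simp
      rw [abs_le] at h6
      lia
  have hep2 : (ep : ℂ) * ep = 1 := by
    rcases hep with h | h <;> rw [h] <;> norm_num
  have hepn : ‖(ep : ℂ)‖ = 1 := by
    rcases hep with h | h <;> rw [h] <;> norm_num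
  -- the support of `T`
  have hsupp : ∀ z : ℂ, z ^ n = 1 → aeval z T ≠ 0 → z ^ d = ep := by
    have h2 : ∑ j ∈ Finset.range n, τ j * (1 - ((ep : ℂ) * ((w ^ j)⁻¹) ^ d).re) = 0 := by
      have h3 : ∀ j ∈ Finset.range n, τ j * (1 - ((ep : ℂ) * ((w ^ j)⁻¹) ^ d).re) =
          τ j - ((ep : ℂ) * ((τ j : ℂ) * ((w ^ j)⁻¹) ^ d)).re := by
        intro j _
        have h4 : (ep : ℂ) * ((τ j : ℂ) * ((w ^ j)⁻¹) ^ d) =
            (τ j : ℝ) * ((ep : ℂ) * ((w ^ j)⁻¹) ^ d) := by ring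
        rw [h4, Complex.re_ofReal_mul]
        ring
      rw [Finset.sum_congr rfl h3, Finset.sum_sub_distrib, hsum, ← Complex.re_sum,
        ← Finset.mul_sum, ← hA, hAd]
      have h4 : (ep : ℂ) * ((n : ℂ) * ep) = n := by
        rw [mul_left_comm, hep2, mul_one]
      rw [h4]
      simp
    have h5 : ∀ j, ‖(ep : ℂ) * ((w ^ j)⁻¹) ^ d‖ = 1 := by
      intro j
      rw [norm_mul, hepn, norm_pow, norm_inv, hjn]
      norm_num
    have h6 := (Finset.sum_eq_zero_iff_of_nonneg (fun j _ =>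
      mul_nonneg (hτ0 j) (sub_nonneg.mpr (unit_re (h5 j)).1))).mp h2
    intro z hz hz0
    obtain ⟨j, hjn', hjz⟩ := hw.eq_pow_of_pow_eq_one hz
    have h7 := h6 j (Finset.mem_range.mpr hjn')
    rw [← hjz, hτc] at hz0
    have h8 : τ j ≠ 0 := fun h => hz0 (by rw [h]; simp)
    have h9 := (mul_eq_zero.mp h7).resolve_left h8
    have h10 := (unit_re (h5 j)).2 (by linarith)
    have h11 : (w ^ j) ^ d ≠ 0 := pow_ne_zero _ (pow_ne_zero _ hw0)
    rw [inv_pow, mul_inv_eq_one₀ h11] at h10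
    rw [← hjz, ← h10]
  refine ⟨d, ep, hd1, hep, ?_⟩
  have hQ1 : (X ^ n - 1 : ℤ[X]) ∣ (1 - C ep * X ^ d) * T - (1 - X ^ n) := by
    refine xn_dvd hn fun z hz => ?_
    simp only [map_sub, map_mul, map_one, map_pow, aeval_X, aeval_C, hz]
    rw [sub_self, sub_zero]
    by_cases h2 : aeval z T = 0
    · rw [h2, mul_zero]
    · rw [hsupp z hz h2]
      have h3 : (algebraMap ℤ ℂ) ep = (ep : ℂ) := rfl
      rw [h3, hep2, sub_self, zero_mul]
  have hQ2 : (X ^ d : ℤ[X]) ∣ (1 - C ep * X ^ d) * T - (1 - X ^ n) := by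
    rw [X_pow_dvd_iff]
    intro k hk
    rw [sub_mul, one_mul, mul_assoc, coeff_sub, coeff_sub, coeff_C_mul, coeff_X_pow_mul',
      if_neg (by lia), mul_zero, sub_zero, coeff_sub, coeff_one, coeff_X_pow,
      if_neg (show ¬ k = n by lia), sub_zero]
    rcases Nat.eq_zero_or_pos k with h2 | h2
    · rw [h2, if_pos rfl, h1, sub_self]
    · rw [if_neg h2.ne', sub_zero]
      have h3 := hd3 k h2 hk
      rw [hA, hD k (by lia)] at h3
      have h4 := (mul_eq_zero.mp h3).resolve_left hn0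
      exact_mod_cast h4
  have hcop : IsCoprime (X ^ d : ℤ[X]) (X ^ n - 1) := by
    apply IsCoprime.pow_left
    obtain ⟨l, rfl⟩ : ∃ l, n = l + 1 := ⟨n - 1, by lia⟩
    exact ⟨X ^ l, -1, by ring⟩
  have hQ3 := hcop.mul_dvd hQ2 hQ1
  have hmon : (X ^ d * (X ^ n - 1) : ℤ[X]).Monic := (monic_X_pow d).mul (xn_monic hn)
  have hxn : (X ^ n - 1 : ℤ[X]).natDegree = n := by
    have := natDegree_X_pow_sub_C (n := n) (r := (1 : ℤ))
    rwa [C_1] at this
  have hdm : (X ^ d * (X ^ n - 1) : ℤ[X]).natDegree = d + n := by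
    rw [(monic_X_pow d).natDegree_mul (xn_monic hn), natDegree_X_pow, hxn]
  have hlt : ((1 - C ep * X ^ d) * T - (1 - X ^ n) : ℤ[X]).natDegree < d + n := by
    have h2 : (1 - C ep * X ^ d : ℤ[X]).natDegree ≤ d := by
      refine (natDegree_sub_le _ _).trans ?_
      rw [natDegree_one]
      exact max_le (Nat.zero_le _) (natDegree_C_mul_X_pow_le ep d)
    have h3 : ((1 - C ep * X ^ d) * T : ℤ[X]).natDegree ≤ d + T.natDegree :=
      natDegree_mul_le.trans (Nat.add_le_add_right h2 _)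
    have h4 : (1 - X ^ n : ℤ[X]).natDegree ≤ n := by
      refine (natDegree_sub_le _ _).trans ?_
      rw [natDegree_one]
      exact max_le (Nat.zero_le _) (natDegree_X_pow_le n)
    refine (natDegree_sub_le _ _).trans_lt ?_
    rw [max_lt_iff]
    constructor <;> lia
  by_contra hne
  have h2 := natDegree_le_of_dvd hQ3 (sub_ne_zero.mpr hne)
  rw [hdm] at h2
  lia

end

end Pool.Agent.B5.UF.H74
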