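import Pool.Agent.Lib.MP_b5021c_nt.IfaceUF
import Pool.Agent.Lib.MP_b5021c_nt.DCM.H61.Kron
import Pool.Agent.Lib.MP_b5021c_nt.E.H29.Pav

/-!
# MP_b5021c_nt, chapter UF, row UF_C2 (helper74): finite Fourier sums, residues on the circle
-/

namespace Pool.Agent.B5.UF.H74

open Polynomial
open scoped ComplexConjugate Topology

theorem geo0 {n : ℕ} {x : ℂ} (h1 : x ^ n = 1) (h2 : x ≠ 1) : ∑ j ∈ Finset.range n, x ^ j = 0 := by
  have h4 := geom_sum_mul x n
  rw [h1, sub_self] at h4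
  exact (mul_eq_zero.mp h4).resolve_right (sub_ne_zero.mpr h2)

theorem dft {n : ℕ} {w : ℂ} (hw : IsPrimitiveRoot w n) (P : ℂ[X])
    (hP : P.natDegree < n) {k : ℕ} (hk : k < n) :
    ∑ j ∈ Finset.range n, P.eval (w ^ j) * ((w ^ j)⁻¹) ^ k = n * P.coeff k := by
  have hn : n ≠ 0 := by lia
  have hw0 : w ≠ 0 := hw.ne_zero hn
  have h1 : ∀ j, P.eval (w ^ j) = ∑ l ∈ Finset.range n, P.coeff l * (w ^ j) ^ l := fun j =>
    eval_eq_sum_range' hP _
  simp_rw [h1, Finset.sum_mul]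
  rw [Finset.sum_comm, Finset.sum_eq_single k]
  · have h2 : ∀ j ∈ Finset.range n, P.coeff k * (w ^ j) ^ k * ((w ^ j)⁻¹) ^ k = P.coeff k := by
      intro j _
      have h3 : (w ^ j) ≠ 0 := pow_ne_zero _ hw0
      rw [mul_assoc, ← mul_pow, mul_inv_cancel₀ h3, one_pow, mul_one]
    rw [Finset.sum_congr rfl h2, Finset.sum_const, Finset.card_range, nsmul_eq_mul]
  · intro l hl hlk
    have hx : (w ^ l * (w⁻¹) ^ k) ≠ 1 := by
      intro h3
      rw [inv_pow, mul_inv_eq_one₀ (pow_ne_zero _ hw0)] at h3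
      exact hlk (hw.pow_inj (Finset.mem_range.mp hl) hk h3)
    have hx1 : (w ^ l * (w⁻¹) ^ k) ^ n = 1 := by
      rw [mul_pow, ← pow_mul, ← pow_mul, mul_comm l n, mul_comm k n, pow_mul, pow_mul,
        hw.pow_eq_one, inv_pow, hw.pow_eq_one]
      simp
    have h4 : ∀ j ∈ Finset.range n, P.coeff l * (w ^ j) ^ l * ((w ^ j)⁻¹) ^ k =
        P.coeff l * (w ^ l * (w⁻¹) ^ k) ^ j := by
      intro j _
      rw [mul_assoc, mul_pow, ← pow_mul, ← pow_mul, ← inv_pow, ← pow_mul, ← pow_mul, mul_comm j l,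
        mul_comm j k]
    rw [Finset.sum_congr rfl h4, ← Finset.mul_sum, geo0 hx1 hx, mul_zero]
  · intro h
    exact absurd (Finset.mem_range.mpr hk) h

/-- Limit along `ζ (1 - ε ω)`. -/
theorem lim_ge {F : ℝ → ℝ} (hF : Continuous F) {δ : ℝ} (hδ : 0 < δ)
    (h : ∀ x, 0 < x → x < δ → 0 ≤ F x) : 0 ≤ F 0 := by
  have h1 : Filter.Tendsto F (𝓝[>] 0) (𝓝 (F 0)) := (hF.tendsto 0).mono_left nhdsWithin_le_nhds
  refine ge_of_tendsto h1 ?_
  filter_upwards [Ioo_mem_nhdsGT hδ] with x hx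
  exact h x hx.1 hx.2

/-- `Re (c conj p) ≥ 0` on the closed disc, `c = (X - ζ) g`, `|ζ| = 1`: the number
`ζ g(ζ) conj p(ζ)` is real and not positive. -/
theorem neg_res {p g c : ℂ[X]} {ζ : ℂ} (hζ : ‖ζ‖ = 1) (hc : c = (X - C ζ) * g)
    (h : ∀ z : ℂ, ‖z‖ ≤ 1 → 0 ≤ (c.eval z * conj (p.eval z)).re) :
    (ζ * g.eval ζ * conj (p.eval ζ)).im = 0 ∧ (ζ * g.eval ζ * conj (p.eval ζ)).re ≤ 0 := by
  have key : ∀ K : ℝ, 0 ≤ -(((1 : ℂ) + K * Complex.I) * (ζ * g.eval ζ * conj (p.eval ζ))).re := by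
    intro K
    have hK : 0 < 1 + K ^ 2 := by positivity
    have h1 := lim_ge (F := fun x : ℝ => -(((1 : ℂ) + K * Complex.I) *
      (ζ * g.eval (ζ * (1 - x * (1 + K * Complex.I))) *
        conj (p.eval (ζ * (1 - x * (1 + K * Complex.I)))))).re) (by fun_prop)
      (δ := 2 / (1 + K ^ 2)) (by positivity) (by
        intro x hx0 hx1
        have hx2 : x * (1 + K ^ 2) < 2 := by rwa [lt_div_iff₀ hK] at hx1
        have hz : ‖ζ * (1 - x * (1 + K * Complex.I))‖ ≤ 1 := by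
          rw [norm_mul, hζ, one_mul]
          have h2 : ‖(1 - x * (1 + K * Complex.I) : ℂ)‖ ^ 2 ≤ 1 := by
            rw [← Complex.normSq_eq_norm_sq, Complex.normSq_apply]
            simp only [Complex.sub_re, Complex.one_re, Complex.mul_re, Complex.ofReal_re,
              Complex.add_re, Complex.I_re, Complex.ofReal_im, Complex.I_im, Complex.add_im,
              Complex.one_im, Complex.mul_im, Complex.sub_im]
            nlinarith
          nlinarith [norm_nonneg (1 - x * (1 + K * Complex.I) : ℂ)]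
        have h3 := h _ hz
        rw [hc, eval_mul, eval_sub, eval_X, eval_C] at h3
        have h4 : (ζ * (1 - x * (1 + K * Complex.I)) - ζ) *
            g.eval (ζ * (1 - x * (1 + K * Complex.I))) *
            conj (p.eval (ζ * (1 - x * (1 + K * Complex.I)))) =
            (x : ℝ) * -(((1 : ℂ) + K * Complex.I) *
              (ζ * g.eval (ζ * (1 - x * (1 + K * Complex.I))) *
                conj (p.eval (ζ * (1 - x * (1 + K * Complex.I)))))) := by ring
        rw [h4, Complex.re_ofReal_mul, Complex.neg_re] at h3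
        exact nonneg_of_mul_nonneg_right h3 hx0)
    simpa using h1
  obtain ⟨A, hA⟩ : ∃ A, A = ζ * g.eval ζ * conj (p.eval ζ) := ⟨_, rfl⟩
  rw [← hA] at key ⊢
  have key2 : ∀ K : ℝ, A.re ≤ K * A.im := by
    intro K
    have h1 := key K
    rw [Complex.mul_re, Complex.add_re, Complex.add_im, Complex.one_re, Complex.one_im,
      Complex.mul_re, Complex.mul_im, Complex.ofReal_re, Complex.ofReal_im, Complex.I_re,
      Complex.I_im] at h1
    nlinarith
  constructor
  · by_contra hne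
    have h1 := key2 ((A.re - 1) / A.im)
    rw [div_mul_cancel₀ _ hne] at h1
    linarith
  · have := key2 0
    linarith

/-- `|p| (1 - |z|) ≤ C |c|` in the disc: `c` has only simple zeros on the circle, where `p` does not
vanish. -/
theorem simple_res {p c : ℂ[X]} {ζ : ℂ} {B : ℝ} (hζ : ‖ζ‖ = 1) (hp : p.eval ζ ≠ 0)
    (h : ∀ z : ℂ, ‖z‖ < 1 → ‖p.eval z‖ * (1 - ‖z‖) ≤ B * ‖c.eval z‖) {g : ℂ[X]}
    (hc : c = (X - C ζ) * g) : g.eval ζ ≠ 0 := by
  intro h0
  have h1 := lim_ge (F := fun x : ℝ => B * ‖g.eval (ζ * (1 - x))‖ - ‖p.eval (ζ * (1 - x))‖)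
    (by fun_prop) (δ := 1) one_pos (by
      intro x hx0 hx1
      have hz : ‖ζ * (1 - x)‖ = 1 - x := by
        rw [norm_mul, hζ, one_mul, ← Complex.ofReal_one, ← Complex.ofReal_sub, Complex.norm_real,
          Real.norm_eq_abs, abs_of_pos (by linarith)]
      have h2 := h (ζ * (1 - x)) (by rw [hz]; linarith)
      rw [hz, hc, eval_mul, eval_sub, eval_X, eval_C, norm_mul] at h2
      have h3 : ‖ζ * (1 - x) - ζ‖ = x := by
        rw [show ζ * (1 - x) - ζ = -(ζ * x) by ring, norm_neg, norm_mul, hζ, one_mul,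
          Complex.norm_real, Real.norm_eq_abs, abs_of_pos hx0]
      rw [h3] at h2
      have h4 : 0 ≤ x * (B * ‖g.eval (ζ * (1 - x))‖ - ‖p.eval (ζ * (1 - x))‖) := by linarith
      exact nonneg_of_mul_nonneg_right h4 hx0)
  simp only [Complex.ofReal_zero, sub_zero, mul_one, h0, norm_zero, mul_zero, zero_sub] at h1
  have h2 : 0 < ‖p.eval ζ‖ := norm_pos_iff.mpr hp
  linarith

end Pool.Agent.B5.UF.H74
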